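import Pool.Agent.helper1.SOL.SpecN

/-!
# Row sol:PRB (MP_cad530_co): vectors with constant products with the even neighbours
-/

set_option autoImplicit false

namespace Pool.Agent.SOL

open Pool.Agent.helper54.SOG Finset

open scoped BigOperators

theorem PRB_sg1 {z : ℤ} (h : |z| = 1) : z * sg z = 1 := by
  unfold sg
  split_ifs with h1
  · rw [abs_of_neg h1] at h
    omega
  · rw [abs_of_nonneg (not_lt.1 h1)] at h
    omega

theorem PRB_sg2 {z : ℤ} (h : |z| = 2) : sg z * 2 = z := by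
  unfold sg
  split_ifs with h1
  · rw [abs_of_neg h1] at h
    omega
  · rw [abs_of_nonneg (not_lt.1 h1)] at h
    omega

theorem PRB_sg1' {z : ℤ} (h : |z| = 1) : sg z * 2 = 2 * z := by
  unfold sg
  split_ifs with h1
  · rw [abs_of_neg h1] at h
    omega
  · rw [abs_of_nonneg (not_lt.1 h1)] at h
    omega

theorem PRB_fit1 (f : ℤ → ℤ → ℕ) (A a : ℤ) (h1 : 1 ≤ f A a) (p q : ℤ) :
    (if A = p ∧ a = q then 1 else 0) ≤ f p q := by
  by_cases e1 : A = p ∧ a = q
  · rw [if_pos e1]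
    obtain ⟨rfl, rfl⟩ := e1
    exact h1
  · rw [if_neg e1]
    exact Nat.zero_le _

theorem PRB_fit2 (f : ℤ → ℤ → ℕ) (A a b : ℤ) (h : a ≠ b) (h1 : 1 ≤ f A a) (h2 : 1 ≤ f A b) (p q : ℤ) :
    (if A = p ∧ a = q then 1 else 0) + (if A = p ∧ b = q then 1 else 0) ≤ f p q := by
  by_cases e1 : A = p ∧ a = q
  · obtain ⟨rfl, rfl⟩ := e1
    rw [if_pos ⟨rfl, rfl⟩, if_neg fun e2 => h e2.2.symm]
    exact h1
  · rw [if_neg e1, zero_add]
    exact PRB_fit1 f A b h2 p q

/-- a pattern inequality for three coordinates with entries `±1` -/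
theorem PRB_fit3 (f : ℤ → ℤ → ℕ) (v1 v2 v3 : ℤ) (hv1 : v1 = 0 ∨ v1 = 2) (hv2 : v2 = 0 ∨ v2 = 2) (hv3 : v3 = 0 ∨ v3 = 2)
    (h2 : (if v1 = 2 then 1 else 0) + (if v2 = 2 then 1 else 0) + (if v3 = 2 then 1 else 0) ≤ f 1 2)
    (h0 : (if v1 = 0 then 1 else 0) + (if v2 = 0 then 1 else 0) + (if v3 = 0 then 1 else 0) ≤ f 1 0) (p q : ℤ) :
    (if 1 = p ∧ v1 = q then 1 else 0) + (if 1 = p ∧ v2 = q then 1 else 0) +
      (if 1 = p ∧ v3 = q then 1 else 0) ≤ f p q := by
  by_cases hp : 1 = p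
  · subst hp
    simp only [true_and]
    by_cases hq : q = 2
    · subst hq
      exact h2
    · by_cases hq0 : q = 0
      · subst hq0
        exact h0
      · rw [if_neg (by omega), if_neg (by omega), if_neg (by omega)]
        exact Nat.zero_le _
  · rw [if_neg (fun h => hp h.1), if_neg (fun h => hp h.1), if_neg (fun h => hp h.1)]
    exact Nat.zero_le _

/-- the signed exchange of two coordinates -/
theorem PRB_T (hCNT : CNT_stmt) {n : ℕ} (x : Vec n) (p q : Fin n) (hpq : p ≠ q) (h : |x p| = |x q|) :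
    ∃ T : Vec n → Vec n, (∀ t s v, v ∈ TD n t s → T v ∈ TD n t s) ∧ (∀ v, x - T v = T (x - v)) ∧
      (∀ v j, j ≠ p → j ≠ q → T v j = v j) ∧
      ∀ (v : Vec n) (c : ℤ), v q = 0 → v p = c * x p → T v p = 0 ∧ T v q = c * x q := by
  by_cases h1 : x p = x q
  · refine ⟨fun v => swp p q v, fun t s v hv => hCNT.2.2.2.2.1 n t s v p q hv, ?_, ?_, ?_⟩
    · intro v
      funext j
      simp only [swp, Pi.sub_apply]
      by_cases hp : j = p
      · subst hp
        rw [Equiv.swap_apply_left, h1]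
      · by_cases hq : j = q
        · subst hq
          rw [Equiv.swap_apply_right, h1]
        · rw [Equiv.swap_apply_of_ne_of_ne hp hq]
    · intro v j hp hq
      simp only [swp]
      rw [Equiv.swap_apply_of_ne_of_ne hp hq]
    · intro v c hq hp
      simp only [swp]
      rw [Equiv.swap_apply_left, Equiv.swap_apply_right, hp, h1]
      exact ⟨hq, rfl⟩
  · have h2 : x p = -x q := (abs_eq_abs.mp h).resolve_left h1
    refine ⟨fun v => flp p (flp q (swp p q v)),
      fun t s v hv => hCNT.2.2.2.1 n t s _ p (hCNT.2.2.2.1 n t s _ q (hCNT.2.2.2.2.1 n t s v p q hv)), ?_, ?_, ?_⟩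
    · intro v
      funext j
      simp only [swp, flp, Pi.sub_apply]
      by_cases hp : j = p
      · subst hp
        rw [if_pos rfl, if_neg hpq, if_pos rfl, if_neg hpq, Equiv.swap_apply_left, h2]
        ring
      · by_cases hq : j = q
        · subst hq
          rw [if_neg hp, if_pos rfl, if_neg hp, if_pos rfl, Equiv.swap_apply_right, h2]
          ring
        · rw [if_neg hp, if_neg hq, if_neg hp, if_neg hq, Equiv.swap_apply_of_ne_of_ne hp hq]
    · intro v j hp hq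
      simp only [swp, flp]
      rw [if_neg hp, if_neg hq, Equiv.swap_apply_of_ne_of_ne hp hq]
    · intro v c hq hp
      constructor
      · change (if p = p then -(if p = q then -v (Equiv.swap p q p) else v (Equiv.swap p q p)) else
          (if p = q then -v (Equiv.swap p q p) else v (Equiv.swap p q p))) = 0
        rw [if_pos rfl, if_neg hpq, Equiv.swap_apply_left, hq, neg_zero]
      · change (if q = p then -(if q = q then -v (Equiv.swap p q q) else v (Equiv.swap p q q)) else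
          (if q = q then -v (Equiv.swap p q q) else v (Equiv.swap p q q))) = c * x q
        rw [if_neg (Ne.symm hpq), if_pos rfl, Equiv.swap_apply_right, hp, h2]
        ring

theorem PRB (hCNT : CNT_stmt) (hPAT : PAT_stmt) (hBTY : BTY_stmt) : PRB_stmt := by
  intro κ x w K hκ hx hK
  have hxb := hx.1
  have hx2 : cnt x 2 = κ - 1 := hx.2.1
  have hx1 : cnt x 1 = 3 := hx.2.2
  have hx0 : cnt x 0 = κ - 1 := by
    have h := hCNT.1 _ x hxb
    omega
  -- admissible vectors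
  have hadm : ∀ y : Vec (2 * κ + 1), y ∈ TD (2 * κ + 1) κ 0 → x - y ∈ TD (2 * κ + 1) (κ - 1) 3 →
      ∑ i, (y i : ℝ) * w i = K := by
    intro y hy hxy
    refine hK y hy ?_
    rw [hBTY.1]
    obtain ⟨h1, h2, h3⟩ := hxy
    refine ⟨h1, Or.inr ?_, ?_⟩
    · rw [h2, h3]; omega
    · rw [h2, h3]; omega
  have hdp : ∀ y : Vec (2 * κ + 1), y ∈ TD (2 * κ + 1) κ 0 → x - y ∈ TD (2 * κ + 1) (κ - 1) 3 →
      dp x y = 2 * κ := by
    intro y hy hxy
    have h1 := hBTY.2.2.1 _ x hxb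
    have h2 := hBTY.2.2.1 _ y hy.1
    have h3 := hBTY.2.2.1 _ (x - y) hxy.1
    rw [hx2, hx1] at h1
    rw [hy.2.1, hy.2.2] at h2
    rw [hxy.2.1, hxy.2.2] at h3
    rw [dp_sub_sub] at h3
    push_cast at h1 h2 h3
    omega
  -- the exchange
  have hex : ∀ p q : Fin (2 * κ + 1), p ≠ q → |x p| = |x q| → ∀ (y : Vec (2 * κ + 1)) (c : ℤ), c ≠ 0 →
      y ∈ TD (2 * κ + 1) κ 0 → x - y ∈ TD (2 * κ + 1) (κ - 1) 3 → y q = 0 → y p = c * x p →
      (x p : ℝ) * w p = x q * w q := by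
    intro p q hpq hab y c hc hy hxy hyq hyp
    obtain ⟨T, hT1, hT2, hT3, hT4⟩ := PRB_T hCNT x p q hpq hab
    obtain ⟨h4, h5⟩ := hT4 y c hyq hyp
    have h1 := hadm y hy hxy
    have h2 := hadm (T y) (hT1 _ _ _ hy) (by rw [hT2]; exact hT1 _ _ _ hxy)
    have h3 : ∑ i, ((y i : ℝ) * w i - (T y i : ℝ) * w i) = 0 := by
      rw [Finset.sum_sub_distrib, h1, h2, sub_self]
    rw [Fintype.sum_eq_add p q hpq (by
      rintro j ⟨hj1, hj2⟩
      rw [hT3 y j hj1 hj2, sub_self])] at h3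
    rw [h4, h5, hyq, hyp] at h3
    push_cast at h3
    have h6 : (c : ℝ) * ((x p : ℝ) * w p - x q * w q) = 0 := by linear_combination h3
    have h7 : (c : ℝ) ≠ 0 := by exact_mod_cast hc
    have h8 := (mul_eq_zero.mp h6).resolve_left h7
    linarith
  -- zeros
  have hz : ∀ z, x z = 0 → w z = 0 := by
    intro z hz
    obtain ⟨a, b, hab, hb, ha1, ha2⟩ : ∃ a b : ℕ, 2 * a + b = κ ∧ b ≤ 3 ∧ 1 ≤ a ∧ a ≤ κ - 1 :=
      ⟨κ / 2, κ % 2, by omega, by omega, by omega, by omega⟩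
    obtain ⟨y, hy1, hy2, hy3⟩ := hPAT.2.2 _ x a (κ - 1 - a) 0 0 (3 - b) b 0 a 0 (κ - 1 - a) hxb
      (by omega) (by omega) (by omega) z 2 (by
        rw [hz, abs_zero]
        exact PRB_fit1 _ 0 2 (by simp only [pat]; norm_num; omega))
    rw [show a + b + a = κ by omega, show 0 + 0 + 0 + 0 = 0 by omega] at hy1
    rw [show κ - 1 - a + 0 + a = κ - 1 by omega, show 0 + b + (3 - b) + 0 = 3 by omega] at hy2
    rw [hz] at hy3
    have hy4 : y z = 2 := by rw [hy3]; simp [sg]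
    have h1 := hadm y hy1 hy2
    have h2 := hadm (flp z y) (hCNT.2.2.2.1 _ _ _ _ z hy1) (by
      have h3 : x - flp z y = flp z (x - y) := by
        funext j
        simp only [flp, Pi.sub_apply]
        by_cases hj : j = z
        · subst hj
          rw [if_pos rfl, if_pos rfl, hz]
          ring
        · rw [if_neg hj, if_neg hj]
      rw [h3]
      exact hCNT.2.2.2.1 _ _ _ _ z hy2)
    have h3 : ∑ i, ((y i : ℝ) * w i - (flp z y i : ℝ) * w i) = 0 := by
      rw [Finset.sum_sub_distrib, h1, h2, sub_self]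
    rw [Fintype.sum_eq_single z (by
      intro j hj
      simp only [flp]
      rw [if_neg hj, sub_self])] at h3
    simp only [flp, if_true] at h3
    rw [hy4] at h3
    push_cast at h3
    linarith
  -- entries `±2`
  have h2 : ∀ p q, |x p| = 2 → |x q| = 2 → (x p : ℝ) * w p = x q * w q := by
    intro p q hp hq
    by_cases hpq : p = q
    · rw [hpq]
    have hκ3 : 3 ≤ κ := by
      have h3 : 1 < cnt x 2 := one_lt_card.2 ⟨p, mem_filter.2 ⟨mem_univ _, hp⟩, q, mem_filter.2 ⟨mem_univ _, hq⟩, hpq⟩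
      omega
    obtain ⟨a, b, hab, hb, ha1, ha2⟩ : ∃ a b : ℕ, 2 * a + b = κ ∧ b ≤ 3 ∧ 1 ≤ a ∧ a + 2 ≤ κ :=
      ⟨κ / 2, κ % 2, by omega, by omega, by omega, by omega⟩
    obtain ⟨y, hy1, hy2, hy3, hy4⟩ := hPAT.2.1 _ x a (κ - 1 - a) 0 0 (3 - b) b 0 a 0 (κ - 1 - a) hxb
      (by omega) (by omega) (by omega) p q 2 0 hpq (by
        rw [hp, hq]
        exact PRB_fit2 _ _ 2 0 (by norm_num) (by simp only [pat]; norm_num; omega) (by simp only [pat]; norm_num; omega))
    rw [show a + b + a = κ by omega, show 0 + 0 + 0 + 0 = 0 by omega] at hy1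
    rw [show κ - 1 - a + 0 + a = κ - 1 by omega, show 0 + b + (3 - b) + 0 = 3 by omega] at hy2
    exact hex p q hpq (hp.trans hq.symm) y 1 one_ne_zero hy1 hy2 (by rw [hy4, mul_zero]) (by
      rw [hy3, PRB_sg2 hp, one_mul])
  -- entries `±1`
  have h1 : ∀ p q, |x p| = 1 → |x q| = 1 → (x p : ℝ) * w p = x q * w q := by
    intro p q hp hq
    by_cases hpq : p = q
    · rw [hpq]
    obtain ⟨a, b, hab, hb1, hb2, ha2⟩ : ∃ a b : ℕ, 2 * a + b = κ ∧ 1 ≤ b ∧ b ≤ 2 ∧ a ≤ κ - 1 := by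
      rcases Nat.even_or_odd κ with ⟨r, hr⟩ | ⟨r, hr⟩
      · exact ⟨r - 1, 2, by omega, by omega, by omega, by omega⟩
      · exact ⟨r, 1, by omega, by omega, by omega, by omega⟩
    obtain ⟨y, hy1, hy2, hy3, hy4⟩ := hPAT.2.1 _ x a (κ - 1 - a) 0 0 (3 - b) b 0 a 0 (κ - 1 - a) hxb
      (by omega) (by omega) (by omega) p q 2 0 hpq (by
        rw [hp, hq]
        exact PRB_fit2 _ _ 2 0 (by norm_num) (by simp only [pat]; norm_num; omega) (by simp only [pat]; norm_num; omega))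
    rw [show a + b + a = κ by omega, show 0 + 0 + 0 + 0 = 0 by omega] at hy1
    rw [show κ - 1 - a + 0 + a = κ - 1 by omega, show 0 + b + (3 - b) + 0 = 3 by omega] at hy2
    exact hex p q hpq (hp.trans hq.symm) y 2 two_ne_zero hy1 hy2 (by rw [hy4, mul_zero]) (by
      rw [hy3, PRB_sg1' hp])
  -- the three entries `±1` and one entry `±2`
  obtain ⟨p1, p2, p3, h12, h13, h23, hset⟩ := Finset.card_eq_three.mp (show (univ.filter fun i => |x i| = 1).card = 3 from hx1)
  have hm : ∀ i, |x i| = 1 ↔ i = p1 ∨ i = p2 ∨ i = p3 := by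
    intro i
    have h := congrArg (fun s : Finset (Fin (2 * κ + 1)) => i ∈ s) hset
    simp only [mem_filter, mem_univ, true_and, mem_insert, mem_singleton, eq_iff_iff] at h
    exact h
  obtain ⟨r0, hr0⟩ : ∃ r, |x r| = 2 := by
    have h : 0 < cnt x 2 := by omega
    obtain ⟨j, hj⟩ := card_pos.1 h
    exact ⟨j, (mem_filter.1 hj).2⟩
  have hp1 : |x p1| = 1 := (hm p1).mpr (Or.inl rfl)
  have hp2 : |x p2| = 1 := (hm p2).mpr (Or.inr (Or.inl rfl))
  have hp3 : |x p3| = 1 := (hm p3).mpr (Or.inr (Or.inr rfl))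
  obtain ⟨α, hα⟩ : ∃ α, α = (x r0 : ℝ) * w r0 := ⟨_, rfl⟩
  obtain ⟨β, hβ⟩ : ∃ β, β = (x p1 : ℝ) * w p1 := ⟨_, rfl⟩
  have hw : ∀ i, w i = α / 4 * x i + (β - α / 4) * (if |x i| = 1 then (x i : ℝ) else 0) := by
    intro i
    have hi := hxb i
    have hi0 := abs_nonneg (x i)
    obtain h0 | h0 | h0 : |x i| = 0 ∨ |x i| = 1 ∨ |x i| = 2 := by omega
    · rw [abs_eq_zero] at h0
      rw [hz i h0, h0]
      simp
    · rw [if_pos h0]
      have h3 := h1 i p1 h0 hp1
      rw [← hβ] at h3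
      have h4 : (x i : ℝ) * x i = 1 := by
        have : x i * x i = 1 := by
          rw [← abs_mul_abs_self, h0]; norm_num
        exact_mod_cast this
      have h5 : w i = ((x i : ℝ) * x i) * w i := by rw [h4, one_mul]
      rw [h5, mul_assoc, h3]
      ring
    · rw [if_neg (by omega)]
      have h3 := h2 i r0 h0 hr0
      rw [← hα] at h3
      have h4 : (x i : ℝ) * x i = 4 := by
        have : x i * x i = 4 := by
          rw [← abs_mul_abs_self, h0]; norm_num
        exact_mod_cast this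
      have h5 : 4 * w i = ((x i : ℝ) * x i) * w i := by rw [h4]
      have h6 : 4 * w i = x i * α := by rw [h5, mul_assoc, h3]
      linarith
  have hsum : ∀ y : Vec (2 * κ + 1), y ∈ TD (2 * κ + 1) κ 0 → x - y ∈ TD (2 * κ + 1) (κ - 1) 3 →
      K = α / 4 * (2 * κ) + (β - α / 4) * ((x p1 * y p1 + x p2 * y p2 + x p3 * y p3 : ℤ) : ℝ) := by
    intro y hy hxy
    rw [← hadm y hy hxy]
    have h3 := hdp y hy hxy
    have h4 : (∑ i, (x i : ℝ) * y i) = 2 * κ := by
      unfold dp at h3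
      exact_mod_cast h3
    have h5 : ∑ i, (if |x i| = 1 then (x i : ℝ) * y i else 0) = x p1 * y p1 + x p2 * y p2 + x p3 * y p3 := by
      rw [← Finset.sum_filter, hset, Finset.sum_insert (by simp [h12, h13]), Finset.sum_insert (by simp [h23]), Finset.sum_singleton]
      ring
    push_cast
    rw [← h4, ← h5, Finset.mul_sum, Finset.mul_sum, ← Finset.sum_add_distrib]
    refine Finset.sum_congr rfl fun i _ => ?_
    rw [hw i]
    split_ifs
    · ring
    · ring
  have hpat : ∀ a b : ℕ, ∀ v1 v2 v3 : ℤ, 2 * a + b = κ → b ≤ 3 → a ≤ κ - 1 →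
      (∀ p q : ℤ, (if 1 = p ∧ v1 = q then 1 else 0) + (if 1 = p ∧ v2 = q then 1 else 0) +
        (if 1 = p ∧ v3 = q then 1 else 0) ≤ pat a (κ - 1 - a) 0 0 (3 - b) b 0 a 0 (κ - 1 - a) p q) →
      K = α / 4 * (2 * κ) + (β - α / 4) * ((v1 + v2 + v3 : ℤ) : ℝ) := by
    intro a b v1 v2 v3 hab hb ha hv
    obtain ⟨y, hy1, hy2, hy3, hy4, hy5⟩ := hPAT.1 _ x a (κ - 1 - a) 0 0 (3 - b) b 0 a 0 (κ - 1 - a) hxb
      (by omega) (by omega) (by omega) p1 p2 p3 v1 v2 v3 h12 h13 h23 (by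
        rw [hp1, hp2, hp3]
        exact hv)
    rw [show a + b + a = κ by omega, show 0 + 0 + 0 + 0 = 0 by omega] at hy1
    rw [show κ - 1 - a + 0 + a = κ - 1 by omega, show 0 + b + (3 - b) + 0 = 3 by omega] at hy2
    have h3 := hsum y hy1 hy2
    have e1 : x p1 * (sg (x p1) * v1) = v1 := by rw [← mul_assoc, PRB_sg1 hp1, one_mul]
    have e2 : x p2 * (sg (x p2) * v2) = v2 := by rw [← mul_assoc, PRB_sg1 hp2, one_mul]
    have e3 : x p3 * (sg (x p3) * v3) = v3 := by rw [← mul_assoc, PRB_sg1 hp3, one_mul]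
    rw [hy3, hy4, hy5, e1, e2, e3] at h3
    exact h3
  have hfin : ∃ c : ℝ, K = α / 4 * (2 * κ) + (β - α / 4) * c ∧ K = α / 4 * (2 * κ) + (β - α / 4) * (c + 4) := by
    rcases Nat.even_or_odd κ with ⟨r, hr⟩ | ⟨r, hr⟩
    · have h3 := hpat r 0 0 0 0 (by omega) (by omega) (by omega) (PRB_fit3 _ _ _ _ (by decide) (by decide) (by decide) (by simp [pat]) (by simp [pat]))
      have h4 := hpat (r - 1) 2 2 2 0 (by omega) (by omega) (by omega) (PRB_fit3 _ _ _ _ (by decide) (by decide) (by decide) (by simp [pat]) (by simp [pat]))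
      refine ⟨0, ?_, ?_⟩
      · rw [h3]; push_cast; ring
      · rw [h4]; push_cast; ring
    · have h3 := hpat r 1 2 0 0 (by omega) (by omega) (by omega) (PRB_fit3 _ _ _ _ (by decide) (by decide) (by decide) (by simp [pat]) (by simp [pat]))
      have h4 := hpat (r - 1) 3 2 2 2 (by omega) (by omega) (by omega) (PRB_fit3 _ _ _ _ (by decide) (by decide) (by decide) (by simp [pat]) (by simp [pat]))
      refine ⟨2, ?_, ?_⟩
      · rw [h3]; push_cast; ring
      · rw [h4]; push_cast; ring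
  obtain ⟨c, hc1, hc2⟩ := hfin
  have hδ : β - α / 4 = 0 := by linarith
  have hκ0 : (κ : ℝ) ≠ 0 := by
    have : κ ≠ 0 := by omega
    exact_mod_cast this
  have hα2 : α / 4 = K / (2 * κ) := by
    rw [hδ, zero_mul, add_zero] at hc1
    rw [hc1]
    field_simp
  intro i
  rw [hw i, hδ, zero_mul, add_zero, hα2]

end Pool.Agent.SOL
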